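import Pool.Agent.H5.FL.Stm

/-! # Crew FL, part BEQ -/

set_option autoImplicit false

open MeasureTheory ProbabilityTheory
open scoped NNReal ENNReal

namespace H55.FL

open H5.FL

theorem t_BEQ (hEEE : S_EEE) (hFSM : S_FSM) (hSMD : S_SMD) : S_BEQ := by
  intro N hN q hq0 hq1 ξ j hjq hmax heq
  have hM : (2 : ℝ) ≤ (N : ℝ) := by exact_mod_cast hN
  have hN1 : (0 : ℝ) < (N : ℝ) - 1 := by linarith
  have hN0 : (0 : ℝ) < (N : ℝ) := by linarith
  obtain ⟨⟨hpos, hsum⟩, -⟩ := (hSMD N hN).imp_left (fun h => h ξ)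
  set p := sm ξ j with hp
  have hp0 : 0 < p := (hpos j).1
  have hp1 : p < 1 := (hpos j).2
  have hcard : ((Finset.univ.erase j).card : ℝ) = (N : ℝ) - 1 := by
    rw [Finset.card_erase_of_mem (Finset.mem_univ j), Finset.card_univ, Fintype.card_fin]
    push_cast [Nat.cast_sub (show 1 ≤ N by omega)]
    ring
  have hpN : 1 / (N : ℝ) ≤ p := by
    rw [div_le_iff₀ hN0]
    have h1 : ∑ i, sm ξ i ≤ ∑ _i : Fin N, p := Finset.sum_le_sum fun i _ => hmax i
    rw [hsum, Finset.sum_const, Finset.card_univ, Fintype.card_fin, nsmul_eq_mul] at h1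
    linarith
  have hyle : (1 - p) / ((N : ℝ) - 1) ≤ q := by
    rw [div_le_iff₀ hN1]
    have h1 : 1 ≤ p * N := by rwa [div_le_iff₀ hN0] at hpN
    nlinarith
  have e1 : psiT N q p = psi N p := by unfold psiT; rw [min_eq_left hjq]
  have e2 : psiT N q ((1 - p) / ((N : ℝ) - 1)) = psi N ((1 - p) / ((N : ℝ) - 1)) := by
    unfold psiT; rw [min_eq_left hyle]
  have hsumpsi : ∑ i ∈ Finset.univ.erase j, psiT N q (sm ξ i) =
      ((N : ℝ) - 1) * psi N ((1 - p) / ((N : ℝ) - 1)) := by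
    rw [Finset.sum_congr rfl (fun i hi => by rw [heq i (Finset.ne_of_mem_erase hi), e2]),
      Finset.sum_const, nsmul_eq_mul, hcard]
  have hG : GG N q ξ = phi N q p + ((N : ℝ) - 1) * phi N q ((1 - p) / ((N : ℝ) - 1)) := by
    unfold GG
    rw [← Finset.add_sum_erase _ _ (Finset.mem_univ j),
      Finset.sum_congr rfl (fun i hi => by rw [heq i (Finset.ne_of_mem_erase hi)]),
      Finset.sum_const, nsmul_eq_mul, hcard]
  obtain ⟨hF1, hF2, hF3⟩ := hFSM N q hM hq0 hq1 p hpN hjq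
  refine ⟨?_, ?_, ?_⟩
  · unfold BB
    rw [hsumpsi, ← hp, e1]
    have := (hEEE N hM p hp0 hp1).2 hpN
    linarith
  · rw [hG, hF1]; exact hF2
  · rw [hG, hF1]; exact hF3

end H55.FL
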