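import Pool.Agent.H5.FL.Stm

/-! # Crew FL, part JEN -/

set_option autoImplicit false

open MeasureTheory ProbabilityTheory
open scoped NNReal ENNReal

namespace H55.FL

open H5.FL

theorem psi_concave (hRCC : S_RCC) (M : ℝ) (hM : 2 ≤ M) : ConcaveOn ℝ (Set.Ico 0 1) (psi M) := by
  have h1 : ConcaveOn ℝ (Set.Ico (0 : ℝ) 1) (fun x => 1 + M / (M - 1) * x) := by
    refine ⟨convex_Ico 0 1, ?_⟩
    intro x _ y _ a b _ _ hab
    simp only [smul_eq_mul]
    apply le_of_eq
    linear_combination (1 : ℝ) * hab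
  have := h1.inf (hRCC M hM)
  exact this

theorem t_JEN (hRCC : S_RCC) (hEEE : S_EEE) : S_JEN := by
  intro N hN p hp hsum j
  have hM : (2 : ℝ) ≤ (N : ℝ) := by exact_mod_cast hN
  have hlt : ∀ i, p i < 1 := by
    intro i
    have : Nontrivial (Fin N) := Fin.nontrivial_iff_two_le.2 hN
    obtain ⟨k, hk⟩ := exists_ne i
    have h1 := Finset.single_lt_sum (f := p) hk (Finset.mem_univ i) (Finset.mem_univ k) (hp k)
      (fun l _ _ => (hp l).le)
    rwa [hsum] at h1
  have hN1 : (0 : ℝ) < (N : ℝ) - 1 := by linarith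
  have hcard : ((Finset.univ.erase j).card : ℝ) = (N : ℝ) - 1 := by
    rw [Finset.card_erase_of_mem (Finset.mem_univ j), Finset.card_univ, Fintype.card_fin]
    push_cast [Nat.cast_sub (show 1 ≤ N by omega)]
    ring
  have hrest : ∑ i ∈ Finset.univ.erase j, p i = 1 - p j := by
    rw [← hsum, ← Finset.add_sum_erase _ _ (Finset.mem_univ j)]
    ring
  have hJ := (psi_concave hRCC N hM).le_map_sum (t := Finset.univ.erase j)
    (w := fun _ => 1 / ((N : ℝ) - 1)) (p := p)
    (fun _ _ => by positivity)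
    (by rw [Finset.sum_const, nsmul_eq_mul, hcard]; field_simp)
    (fun i _ => ⟨(hp i).le, hlt i⟩)
  simp only [smul_eq_mul, ← Finset.mul_sum] at hJ
  rw [hrest] at hJ
  have hJ' : ∑ i ∈ Finset.univ.erase j, psi N (p i) ≤ ((N : ℝ) - 1) * psi N ((1 - p j) / ((N : ℝ) - 1)) := by
    have h2 : 1 / ((N : ℝ) - 1) * (1 - p j) = (1 - p j) / ((N : ℝ) - 1) := by ring
    rw [h2] at hJ
    have h3 := mul_le_mul_of_nonneg_left hJ hN1.le
    have h4 : ((N : ℝ) - 1) * (1 / ((N : ℝ) - 1) * ∑ i ∈ Finset.univ.erase j, psi N (p i)) =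
        ∑ i ∈ Finset.univ.erase j, psi N (p i) := by
      field_simp
    rw [h4] at h3
    exact h3
  have hE := (hEEE N hM (p j) (hp j) (hlt j)).1
  have h5 := mul_le_mul_of_nonneg_left hJ' (sq_nonneg (p j))
  nlinarith [h5, hE]

end H55.FL
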