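import Pool.Agent.H5.FL.Stm

/-! # Crew FL, part FSM -/

set_option autoImplicit false

open MeasureTheory ProbabilityTheory
open scoped NNReal ENNReal

namespace H55.FL

open H5.FL

/-- derivative of `VV M` -/
noncomputable def V1 (M p : ℝ) : ℝ :=
  M * (M - 2) / (M - 1) + 2 * Real.log ((M - 1) * p / (1 - p)) + (1 / (1 - p) - 1 / p)

theorem hasDeriv_log (M p : ℝ) (hM : 2 ≤ M) (h0 : 0 < p) (h1 : p < 1) :
    HasDerivAt (fun p => Real.log ((M - 1) * p / (1 - p))) (1 / (p * (1 - p))) p := by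
  have hp0 : 0 < 1 - p := by linarith
  have hM0 : 0 < M - 1 := by linarith
  have hp : (1 - p) ≠ 0 := hp0.ne'
  have hM1 : (M - 1) ≠ 0 := hM0.ne'
  have hd : HasDerivAt (fun p : ℝ => (M - 1) * p / (1 - p))
      (((M - 1) * (1 - p) - (M - 1) * p * (-1)) / (1 - p) ^ 2) p := by
    have ha : HasDerivAt (fun p : ℝ => (M - 1) * p) (M - 1) p := by
      simpa using (hasDerivAt_id p).const_mul (M - 1)
    have hb : HasDerivAt (fun p : ℝ => 1 - p) (-1) p := by
      simpa using (hasDerivAt_id p).const_sub 1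
    exact ha.div hb hp
  have hne : (M - 1) * p / (1 - p) ≠ 0 := by positivity
  convert hd.log hne using 1
  field_simp
  ring

theorem hasDeriv_VV (M p : ℝ) (hM : 2 ≤ M) (h0 : 0 < p) (h1 : p < 1) :
    HasDerivAt (VV M) (V1 M p) p := by
  have hp0 : 0 < 1 - p := by linarith
  have hM0 : 0 < M - 1 := by linarith
  have ha : HasDerivAt (fun q : ℝ => (M - 2) / (M - 1) * (M * q - 1)) ((M - 2) / (M - 1) * M) p := by
    have := (((hasDerivAt_id p).const_mul M).sub_const 1).const_mul ((M - 2) / (M - 1))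
    simpa using this
  have hb : HasDerivAt (fun q : ℝ => 2 * q - 1) 2 p := by
    simpa using ((hasDerivAt_id p).const_mul 2).sub_const 1
  have hc := ha.add (hb.mul (hasDeriv_log M p hM h0 h1))
  have heq : VV M = (fun q : ℝ => (M - 2) / (M - 1) * (M * q - 1)) +
      (fun q : ℝ => 2 * q - 1) * (fun q => Real.log ((M - 1) * q / (1 - q))) := by
    funext q
    simp only [VV, Pi.add_apply, Pi.mul_apply]
  rw [heq]
  refine hc.congr_deriv ?_
  unfold V1
  field_simp
  ring

theorem hasDeriv_V1 (M p : ℝ) (hM : 2 ≤ M) (h0 : 0 < p) (h1 : p < 1) :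
    HasDerivAt (V1 M) (1 / (p ^ 2 * (1 - p) ^ 2)) p := by
  have hp0 : 0 < 1 - p := by linarith
  have ha := (hasDeriv_log M p hM h0 h1).const_mul 2
  have hb : HasDerivAt (fun p : ℝ => 1 / (1 - p)) (1 / (1 - p) ^ 2) p := by
    have hb1 : HasDerivAt (fun p : ℝ => 1 - p) (-1) p := by
      simpa using (hasDerivAt_id p).const_sub 1
    have := hb1.inv hp0.ne'
    simp only [one_div]
    refine this.congr_deriv ?_
    field_simp
  have hc : HasDerivAt (fun p : ℝ => 1 / p) (-(1 / p ^ 2)) p := by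
    have := (hasDerivAt_id p).inv h0.ne'
    simp only [one_div]
    refine this.congr_deriv ?_
    simp only [id]
    field_simp
  have hd := (ha.const_add (M * (M - 2) / (M - 1))).add (hb.sub hc)
  have heq : V1 M = (fun p => M * (M - 2) / (M - 1) + 2 * Real.log ((M - 1) * p / (1 - p))) +
      ((fun p : ℝ => 1 / (1 - p)) - (fun p : ℝ => 1 / p)) := by
    funext q
    simp only [V1, Pi.add_apply, Pi.sub_apply]
  rw [heq]
  refine hd.congr_deriv ?_
  field_simp
  ring

theorem log_at (M : ℝ) (hM : 2 ≤ M) : Real.log ((M - 1) * (1 / M) / (1 - 1 / M)) = 0 := by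
  have hM0 : 0 < M := by linarith
  have hM1 : 0 < M - 1 := by linarith
  have : (M - 1) * (1 / M) / (1 - 1 / M) = 1 := by
    field_simp
  rw [this, Real.log_one]

theorem VV_at (M : ℝ) (hM : 2 ≤ M) : VV M (1 / M) = 0 := by
  have hM0 : 0 < M := by linarith
  unfold VV
  rw [log_at M hM]
  field_simp
  ring

theorem V1_at (M : ℝ) (hM : 2 ≤ M) : V1 M (1 / M) = 0 := by
  have hM0 : 0 < M := by linarith
  have hM1 : 0 < M - 1 := by linarith
  unfold V1
  rw [log_at M hM]
  have : 1 - 1 / M = (M - 1) / M := by field_simp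
  rw [this]
  field_simp
  ring

theorem t_FSM (hPHD : S_PHD) (hEEE : S_EEE) : S_FSM := by
  intro M q hM hq0 hq1 p hp0 hpq
  have hM0 : 0 < M := by linarith
  have hM1 : 0 < M - 1 := by linarith
  have hiM : 0 < 1 / M := by positivity
  have hpos : ∀ x ∈ Set.Icc (1 / M) q, 0 < x ∧ x < 1 := fun x hx =>
    ⟨lt_of_lt_of_le hiM hx.1, lt_of_le_of_lt hx.2 hq1⟩
  have hypos : ∀ x : ℝ, x < 1 → 0 < (1 - x) / (M - 1) := fun x hx => div_pos (by linarith) hM1
  have hyle : ∀ x : ℝ, 1 / M ≤ x → (1 - x) / (M - 1) ≤ 1 / M := by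
    intro x hx
    rw [div_le_div_iff₀ hM1 hM0]
    have : 1 ≤ x * M := by
      rwa [div_le_iff₀ hM0] at hx
    linarith
  -- derivative of `F`
  have hF : ∀ x ∈ Set.Icc (1 / M) q,
      HasDerivAt (fun p => phi M q p + (M - 1) * phi M q ((1 - p) / (M - 1)))
        (phi1 M q x - phi1 M q ((1 - x) / (M - 1))) x := by
    intro x hx
    have h1 := (hPHD M q hM hq1 x (hpos x hx).1).1
    have h2 := (hPHD M q hM hq1 ((1 - x) / (M - 1)) (hypos x (hpos x hx).2)).1
    have h3 : HasDerivAt (fun p : ℝ => (1 - p) / (M - 1)) (-1 / (M - 1)) x := by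
      have hb : HasDerivAt (fun p : ℝ => 1 - p) (-1) x := by
        simpa using (hasDerivAt_id x).const_sub 1
      exact hb.div_const (M - 1)
    have h4 := h1.add ((h2.comp x h3).const_mul (M - 1))
    refine h4.congr_deriv ?_
    field_simp
    ring
  have hF1 : ∀ x ∈ Set.Icc (1 / M) q,
      HasDerivAt (fun p => phi1 M q p - phi1 M q ((1 - p) / (M - 1)))
        (1 / (x ^ 2 * (1 - x) ^ 2)) x := by
    intro x hx
    obtain ⟨hx0, hx1⟩ := hpos x hx
    have h1 := (hPHD M q hM hq1 x hx0).2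
    have h2 := (hPHD M q hM hq1 ((1 - x) / (M - 1)) (hypos x hx1)).2
    have h3 : HasDerivAt (fun p : ℝ => (1 - p) / (M - 1)) (-1 / (M - 1)) x := by
      have hb : HasDerivAt (fun p : ℝ => 1 - p) (-1) x := by
        simpa using (hasDerivAt_id x).const_sub 1
      exact hb.div_const (M - 1)
    have h4 := h1.sub (h2.comp x h3)
    refine h4.congr_deriv ?_
    have hE := (hEEE M hM x hx0 hx1).2 hx.1
    have e1 : psiT M q x = psi M x := by unfold psiT; rw [min_eq_left hx.2]
    have e2 : psiT M q ((1 - x) / (M - 1)) = psi M ((1 - x) / (M - 1)) := by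
      unfold psiT; rw [min_eq_left ((hyle x hx.1).trans hq0)]
    rw [e1, e2]
    have hx1' : 0 < 1 - x := by linarith
    have e3 : psi M x / x ^ 2 - psi M ((1 - x) / (M - 1)) / ((1 - x) / (M - 1)) ^ 2 * (-1 / (M - 1)) =
        ((1 - x) ^ 2 * psi M x + (M - 1) * x ^ 2 * psi M ((1 - x) / (M - 1))) /
          (x ^ 2 * (1 - x) ^ 2) := by
      generalize psi M ((1 - x) / (M - 1)) = u
      generalize psi M x = v
      field_simp
      ring
    rw [e3, hE]
  have hy1 : (1 - 1 / M) / (M - 1) = 1 / M := by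
    field_simp
  -- first comparison
  have hcomp1 : ∀ x ∈ Set.Icc (1 / M) q,
      phi1 M q x - phi1 M q ((1 - x) / (M - 1)) - V1 M x = 0 := by
    have hd : ∀ x ∈ Set.Icc (1 / M) q,
        HasDerivAt (fun x => phi1 M q x - phi1 M q ((1 - x) / (M - 1)) - V1 M x) 0 x := by
      intro x hx
      have := (hF1 x hx).sub (hasDeriv_V1 M x hM (hpos x hx).1 (hpos x hx).2)
      rw [sub_self] at this
      exact this
    intro x hx
    have := constant_of_has_deriv_right_zero
      (f := fun x => phi1 M q x - phi1 M q ((1 - x) / (M - 1)) - V1 M x) (a := 1 / M) (b := q)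
      (fun y hy => (hd y hy).continuousAt.continuousWithinAt)
      (fun y hy => (hd y ⟨hy.1, hy.2.le⟩).hasDerivWithinAt) x hx
    rw [this, hy1, V1_at M hM]
    ring
  have hcomp : ∀ x ∈ Set.Icc (1 / M) q,
      phi M q x + (M - 1) * phi M q ((1 - x) / (M - 1)) - VV M x = 0 := by
    have hd : ∀ x ∈ Set.Icc (1 / M) q,
        HasDerivAt (fun x => phi M q x + (M - 1) * phi M q ((1 - x) / (M - 1)) - VV M x) 0 x := by
      intro x hx
      have := (hF x hx).sub (hasDeriv_VV M x hM (hpos x hx).1 (hpos x hx).2)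
      rw [hcomp1 x hx] at this
      exact this
    intro x hx
    have := constant_of_has_deriv_right_zero
      (f := fun x => phi M q x + (M - 1) * phi M q ((1 - x) / (M - 1)) - VV M x) (a := 1 / M) (b := q)
      (fun y hy => (hd y hy).continuousAt.continuousWithinAt)
      (fun y hy => (hd y ⟨hy.1, hy.2.le⟩).hasDerivWithinAt) x hx
    have hphi : phi M q (1 / M) = 0 := by
      unfold phi; exact intervalIntegral.integral_same
    rw [this, hy1, VV_at M hM, hphi]
    ring
  -- monotonicity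
  have hmono1 : MonotoneOn (V1 M) (Set.Icc (1 / M) q) := by
    apply monotoneOn_of_deriv_nonneg (convex_Icc _ _)
    · exact fun y hy => (hasDeriv_V1 M y hM (hpos y hy).1 (hpos y hy).2).continuousAt.continuousWithinAt
    · exact fun y hy => (hasDeriv_V1 M y hM (hpos y (interior_subset hy)).1
        (hpos y (interior_subset hy)).2).differentiableAt.differentiableWithinAt
    · intro y hy
      rw [(hasDeriv_V1 M y hM (hpos y (interior_subset hy)).1 (hpos y (interior_subset hy)).2).deriv]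
      positivity
  have hV1nn : ∀ y ∈ Set.Icc (1 / M) q, 0 ≤ V1 M y := by
    intro y hy
    have := hmono1 ⟨le_rfl, hq0⟩ hy hy.1
    rwa [V1_at M hM] at this
  have hmono : MonotoneOn (VV M) (Set.Icc (1 / M) q) := by
    apply monotoneOn_of_deriv_nonneg (convex_Icc _ _)
    · exact fun y hy => (hasDeriv_VV M y hM (hpos y hy).1 (hpos y hy).2).continuousAt.continuousWithinAt
    · exact fun y hy => (hasDeriv_VV M y hM (hpos y (interior_subset hy)).1
        (hpos y (interior_subset hy)).2).differentiableAt.differentiableWithinAt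
    · intro y hy
      rw [(hasDeriv_VV M y hM (hpos y (interior_subset hy)).1 (hpos y (interior_subset hy)).2).deriv]
      exact hV1nn y (interior_subset hy)
  refine ⟨by linarith [hcomp p ⟨hp0, hpq⟩], ?_, hmono ⟨hp0, hpq⟩ ⟨hq0, le_rfl⟩ hpq⟩
  have := hmono ⟨le_rfl, hq0⟩ ⟨hp0, hpq⟩ hp0
  rwa [VV_at M hM] at this

end H55.FL
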